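import Pool.Agent.Helper86.NB.St

/-!
# Project NB, module MTB: the split extension is metabelian
-/

set_option autoImplicit false

namespace Pool.Agent.Helper6.NB

open Filter Topology Pool.Agent.Helper86.NB Pool.Agent.Helper86.ML Pool.Agent.Helper67.Cour

section
variable {G : Type} [Group G]

/-- The image of the commutator subgroup in a quotient. -/
theorem commutator_quot (N : Subgroup G) [N.Normal] :
    commutator (G ⧸ N) = (commutator G).map (QuotientGroup.mk' N) := by
  rw [commutator_def, commutator_def, Subgroup.map_commutator,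
    Subgroup.map_top_of_surjective _ (QuotientGroup.mk'_surjective N)]

/-- A homomorphism maps the commutator subgroup into the commutator subgroup. -/
theorem map_mem_commutator {H : Type} [Group H] (f : H →* G) {w : H} (hw : w ∈ commutator H) :
    f w ∈ commutator G := by
  have h1 : f w ∈ (commutator H).map f := Subgroup.mem_map_of_mem f hw
  rw [commutator_def, Subgroup.map_commutator] at h1
  rw [commutator_def]
  exact Subgroup.commutator_mono le_top le_top h1

/-- The class of `z` modulo `Cc A` is the class of its part in `A`, if `z.1.2` commutes with `A`. -/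
theorem class_eq (A : Subgroup G) [A.Normal] (z : Gt A)
    (hz : ∀ b ∈ A, z.1.2 * b = b * z.1.2) :
    ((z : Gt A) : Gt A ⧸ Cc A) =
      ((lf A ⟨z.1.1 * z.1.2⁻¹, mem_Gt.1 z.2⟩ : Gt A) : Gt A ⧸ Cc A) := by
  have h1 : dg A z.1.2 ∈ Cc A := by
    rw [mem_Cc]
    exact ⟨rfl, hz⟩
  have h2 : ((dg A z.1.2 : Gt A) : Gt A ⧸ Cc A) = 1 := (QuotientGroup.eq_one_iff _).2 h1
  conv_lhs => rw [eq_lf_mul_dg A z]
  rw [QuotientGroup.mk_mul, h2, mul_one]

end

theorem hMTB (h1 : StGTC) : StMTB := by
  intro G _ a ha hc
  have hAD : Subgroup.normalClosure {a} ≤ commutator G :=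
    Subgroup.normalClosure_le_normal (by simpa using ha)
  have hAC : Subgroup.normalClosure {a} ≤ Subgroup.centralizer ((commutator G : Subgroup G) : Set G) := by
    apply Subgroup.normalClosure_le_normal
    rw [Set.singleton_subset_iff, SetLike.mem_coe, Subgroup.mem_centralizer_iff]
    intro c hcc
    exact (hc c hcc).symm
  have hcen : ∀ b ∈ Subgroup.normalClosure {a}, ∀ c ∈ commutator G, b * c = c * b := by
    intro b hb c hcc
    exact ((Subgroup.mem_centralizer_iff.1 (hAC hb)) c hcc).symm
  have hab : ∀ b ∈ Subgroup.normalClosure {a}, ∀ c ∈ Subgroup.normalClosure {a},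
      b * c = c * b := fun b hb c hcc => hcen b hb c (hAD hcc)
  refine ⟨hab, ?_, ?_⟩
  · set A := Subgroup.normalClosure {a} with hA
    have key : ∀ p ∈ commutator (Gt A ⧸ Cc A), ∃ b : A, p = ((lf A b : Gt A) : Gt A ⧸ Cc A) := by
      intro p hp
      rw [commutator_quot] at hp
      obtain ⟨w, hw, rfl⟩ := hp
      refine ⟨⟨w.1.1 * w.1.2⁻¹, mem_Gt.1 w.2⟩, ?_⟩
      apply class_eq A w
      intro b hb
      have h2 : w.1.2 ∈ commutator G :=
        map_mem_commutator ((MonoidHom.snd G G).comp (Gt A).subtype) hw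
      exact (hcen b hb _ h2).symm
    intro p hp q hq
    obtain ⟨b, rfl⟩ := key p hp
    obtain ⟨c, rfl⟩ := key q hq
    rw [← QuotientGroup.mk_mul, ← QuotientGroup.mk_mul, ← lf_mul, ← lf_mul]
    have h3 : b * c = c * b := Subtype.ext (hab _ b.2 _ c.2)
    rw [h3]
  · intro hfg
    obtain ⟨T, hT⟩ := hfg.out
    set A := Subgroup.normalClosure {a} with hA
    have haA : a ∈ A := Subgroup.subset_normalClosure (Set.mem_singleton a)
    classical
    have h2 : Subgroup.closure
        ((T.image (dg A) ∪ {lf A ⟨a, haA⟩} : Finset (Gt A)) : Set (Gt A)) = ⊤ := by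
      apply h1.1 G A ⟨a, haA⟩ (T : Set G) _ hA hT
      · intro x hx
        simp only [Finset.coe_union, Finset.coe_image, Set.mem_union]
        left
        exact ⟨x, hx, rfl⟩
      · simp
    have h3 : Group.FG (Gt A) := ⟨⟨_, h2⟩⟩
    exact QuotientGroup.fg (Cc A)

end Pool.Agent.Helper6.NB
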